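import Pool.Agent.Helper51.Hart.Defs2

/-!
# HT-16: the atlas of a cover (helper16)
-/

set_option autoImplicit false

noncomputable section

open Set Metric Complex MeasureTheory

namespace Pool.Helper51.Hart

variable {σ : ℝ × ℂ → ℝ} {m : ℕ}

theorem h16_near_open (l r : ℝ) : IsOpen {w | Near σ l r w} := by
  by_cases hr : 0 ≤ r
  · have e : {w | Near σ l r w} =
        ⋃ (r' : ℝ) (w' : ℂ) (_ : 0 ≤ r' ∧ σ (r', w') ≤ 0 ∧ |r - r'| < l), ball w' l := by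
      ext w
      simp only [mem_ofPred_eq, mem_iUnion, mem_ball, dist_eq_norm]
      constructor
      · rintro ⟨_, r', w', h1, h2, h3, h4⟩
        exact ⟨r', w', ⟨h1, h2, h3⟩, h4⟩
      · rintro ⟨r', w', ⟨h1, h2, h3⟩, h4⟩
        exact ⟨hr, r', w', h1, h2, h3, h4⟩
    rw [e]
    exact isOpen_iUnion fun _ => isOpen_iUnion fun _ => isOpen_iUnion fun _ => isOpen_ball
  · have e : {w : ℂ | Near σ l r w} = ∅ := by
      ext w
      simp only [mem_ofPred_eq, mem_empty_iff_false, iff_false]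
      exact fun h => hr h.1
    rw [e]
    exact isOpen_empty

theorem h16_ball_open (c : ℂ) (d : ℝ) : IsOpen {w : ℂ | ‖w - c‖ < d} :=
  isOpen_lt (by fun_prop) continuous_const

theorem h16_openP (X : Cover σ m) (l : ℝ) (i : Fin m) : IsOpen (X.P l i) := by
  have e : X.P l i = {w : ℂ | ‖w - X.c i‖ < X.δ i / 2} ∩
      ⋃ (r : ℝ) (_ : X.InN i r), {w | Near σ l r w} := by
    ext w
    simp only [Cover.P, mem_ofPred_eq, mem_inter_iff, mem_iUnion]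
    constructor
    · rintro ⟨h1, r, h2, h3⟩
      exact ⟨h1, r, h3, h2⟩
    · rintro ⟨h1, r, h3, h2⟩
      exact ⟨h1, r, h2, h3⟩
  rw [e]
  exact (h16_ball_open _ _).inter (isOpen_iUnion fun r => isOpen_iUnion fun _ => h16_near_open l r)

theorem h16_openS (X : Cover σ m) (l : ℝ) (i j : Fin m) : IsOpen (X.S l i j) := by
  have e : X.S l i j = {w : ℂ | ‖w - X.c i‖ < X.δ i / 2} ∩ ({w : ℂ | ‖w - X.c j‖ < X.δ j / 2} ∩
      ⋃ (r : ℝ) (_ : X.InN i r ∧ X.InN j r), {w | Near σ l r w}) := by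
    ext w
    simp only [Cover.S, mem_ofPred_eq, mem_inter_iff, mem_iUnion]
    constructor
    · rintro ⟨h1, h1', r, h2, h3⟩
      exact ⟨h1, h1', r, h3, h2⟩
    · rintro ⟨h1, h1', r, h3, h2⟩
      exact ⟨h1, h1', r, h2, h3⟩
  rw [e]
  exact (h16_ball_open _ _).inter ((h16_ball_open _ _).inter
    (isOpen_iUnion fun r => isOpen_iUnion fun _ => h16_near_open l r))

/-- HT-16, second part -/
theorem cover_clop (X : Cover σ m) {l : ℝ} (hl : 0 < l) (hT : Transfer X l) :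
    ∀ i j, ∀ w ∈ X.P l i, ‖w - X.c j‖ < X.δ j / 2 → w ∉ X.S l i j →
      ∀ᶠ w' in nhds w, w' ∉ X.S l i j := by
  rintro i j w ⟨hi, r, hr, hir⟩ hj hw
  have h1 : ∀ᶠ w' in nhds w, Near σ l r w' := (h16_near_open l r).mem_nhds hr
  filter_upwards [h1] with w' h1' hS
  obtain ⟨hi', hj', r', h2, h3, h4⟩ := hS
  apply hw
  exact ⟨hi, hj, r, hr, hir, hT i j r' r w' hi' hj' h2 h1' h3 h4 hir⟩

/-- HT-16, first part -/
theorem cover_atlas (X : Cover σ m) : ∃ R : ℝ, ∀ l, 0 < l → Transfer X l →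
    Atlas m (X.P l) (X.S l) R := by
  have hδ : ∀ i, 0 < X.δ i := fun i => (X.box i).hδ
  refine ⟨∑ i, (‖X.c i‖ + X.δ i) + 1, fun l hl hT => ?_⟩
  refine ⟨fun i => h16_openP X l i, fun i j => h16_openS X l i j, ?_, ?_, ?_, ?_, ?_, ?_, ?_⟩
  · rintro i j w ⟨h1, h2, r, h3, h4, h5⟩
    exact ⟨⟨h1, r, h3, h4⟩, ⟨h2, r, h3, h5⟩⟩
  · intro i
    ext w
    constructor
    · rintro ⟨h1, h2, r, h3, h4, h5⟩
      exact ⟨h1, r, h3, h4⟩
    · rintro ⟨h1, r, h3, h4⟩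
      exact ⟨h1, h1, r, h3, h4, h4⟩
  · rintro i j w ⟨h1, h2, r, h3, h4, h5⟩
    exact ⟨h2, h1, r, h3, h5, h4⟩
  · rintro i j k w ⟨⟨h1, h2, r, h3, h4, h5⟩, ⟨h1', h2', r', h3', h4', h5'⟩⟩
    exact ⟨h1, h2', r', h3', hT j i r r' w h2 h1 h3 h3' h5 h4 h4', h5'⟩
  · intro i j
    rw [isOpen_iff_mem_nhds]
    rintro w ⟨⟨h1, h2⟩, h3⟩
    have h4 := cover_clop X hl hT i j w h1 h2.1 h3
    filter_upwards [(h16_openP X l i).mem_nhds h1, (h16_openP X l j).mem_nhds h2, h4] with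
      w' h5 h6 h7
    exact ⟨⟨h5, h6⟩, h7⟩
  · have : 0 ≤ ∑ i, (‖X.c i‖ + X.δ i) :=
      Finset.sum_nonneg fun i _ => add_nonneg (norm_nonneg _) (hδ i).le
    linarith
  · rintro i w ⟨h1, _⟩
    rw [mem_ball_zero_iff]
    have h2 : ‖X.c i‖ + X.δ i ≤ ∑ i, (‖X.c i‖ + X.δ i) :=
      Finset.single_le_sum (f := fun i => ‖X.c i‖ + X.δ i)
        (fun i _ => add_nonneg (norm_nonneg _) (hδ i).le) (Finset.mem_univ i)
    have h3 : ‖w‖ ≤ ‖w - X.c i‖ + ‖X.c i‖ := by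
      simpa using norm_add_le (w - X.c i) (X.c i)
    have := hδ i
    linarith

end Pool.Helper51.Hart
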