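import Pool.Agent.Helper51.Hart.Defs2

/-!
# HT-01: the continuity principle from a Stein neighbourhood basis (helper16)
-/

set_option autoImplicit false

noncomputable section

open Set Metric Complex MeasureTheory

namespace Pool.Helper51.Hart

/-- HT-01 -/
theorem kontP (K : Set (ℂ × ℂ)) (hK : IsClosed K) (hS : SteinBasis K) : KontP K := by
  intro X _ Q P hQ hP hPQ F hF hFP hmax h0
  have hF' : ∀ x ∈ Q, ContinuousOn (fun t => F t x) (Icc (0 : ℝ) 1) := by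
    intro x hx
    have h1 : ContinuousOn (fun t : ℝ => (t, x)) (Icc (0 : ℝ) 1) := by fun_prop
    exact hF.comp h1 fun t ht => ⟨ht, hx⟩
  have claim : ∀ V : Set (ℂ × ℂ), IsOpen V → K ⊆ V →
      (∀ S ⊆ V, IsCompact S → IsCompact {z ∈ V | ∀ f : ℂ × ℂ → ℂ, DifferentiableOn ℂ f V →
          ∀ M : ℝ, (∀ w ∈ S, ‖f w‖ ≤ M) → ‖f z‖ ≤ M}) →
      ∀ t ∈ Icc (0 : ℝ) 1, ∀ x ∈ Q, F t x ∈ V := by
    intro V hV hKV hst
    set S : Set (ℂ × ℂ) := (fun p : ℝ × X => F p.1 p.2) '' (Icc (0 : ℝ) 1 ×ˢ P) with hSdef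
    have hSc : IsCompact S := (isCompact_Icc.prod hP).image_of_continuousOn
      (hF.mono (prod_mono Subset.rfl hPQ))
    have hSV : S ⊆ V := by
      rintro _ ⟨⟨t, x⟩, ⟨ht, hx⟩, rfl⟩
      exact hKV (hFP t ht x hx)
    have hcl := (hst S hSV hSc).isClosed
    set Sh : Set (ℂ × ℂ) := {z ∈ V | ∀ f : ℂ × ℂ → ℂ, DifferentiableOn ℂ f V →
          ∀ M : ℝ, (∀ w ∈ S, ‖f w‖ ≤ M) → ‖f z‖ ≤ M} with hSh
    have hin : ∀ t ∈ Icc (0 : ℝ) 1, (∀ x ∈ Q, F t x ∈ V) → ∀ x ∈ Q, F t x ∈ Sh := by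
      intro t ht hx x hxQ
      refine ⟨hx x hxQ, fun f hf M hM => ?_⟩
      refine hmax t ht V hV hx f hf M (fun y hy => ?_) x hxQ
      exact hM _ ⟨(t, y), ⟨ht, hy⟩, rfl⟩
    have hmain : Icc (0 : ℝ) 1 ⊆ {t | ∀ x ∈ Q, F t x ∈ V} := by
      apply IsClosed.Icc_subset_of_forall_exists_gt
      · have e : {t | ∀ x ∈ Q, F t x ∈ V} ∩ Icc (0 : ℝ) 1 =
            Icc (0 : ℝ) 1 ∩ ⋂ x ∈ Q, (Icc (0 : ℝ) 1 ∩ (fun t => F t x) ⁻¹' Sh) := by
          ext t
          simp only [mem_inter_iff, mem_ofPred_eq, mem_iInter, mem_preimage]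
          constructor
          · rintro ⟨h1, h2⟩
            exact ⟨h2, fun x hx => ⟨h2, hin t h2 h1 x hx⟩⟩
          · rintro ⟨h1, h2⟩
            exact ⟨fun x hx => (h2 x hx).2.1, h1⟩
        rw [e]
        exact isClosed_Icc.inter (isClosed_biInter fun x hx =>
          (hF' x hx).preimage_isClosed_of_isClosed isClosed_Icc hcl)
      · intro x hx
        exact hKV (h0 x hx)
      · rintro t₀ ⟨ht₀, ht₁⟩ y hy
        have hy' : t₀ < y := hy
        have hev : ∀ᶠ t in nhds t₀, ∀ x ∈ Q, t ∈ Icc (0 : ℝ) 1 → F t x ∈ V := by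
          have h2 := hQ.eventually_forall_of_forall_eventually (x₀ := t₀)
            (P := fun t x => t ∈ Icc (0 : ℝ) 1 → x ∈ Q → F t x ∈ V) (fun x hx => ?_)
          · filter_upwards [h2] with t ht x hx ht1
            exact ht x hx ht1 hx
          · have h3 := hF (t₀, x) ⟨⟨ht₁.1, ht₁.2.le⟩, hx⟩
            have h4 : ∀ᶠ p in nhdsWithin (t₀, x) (Icc (0 : ℝ) 1 ×ˢ Q), F p.1 p.2 ∈ V :=
              h3 (hV.mem_nhds (ht₀ x hx))
            rw [eventually_nhdsWithin_iff] at h4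
            filter_upwards [h4] with p hp hp1 hp2
            exact hp ⟨hp1, hp2⟩
        have h5 : ∀ᶠ t in nhdsWithin t₀ (Ioi t₀), (∀ x ∈ Q, t ∈ Icc (0 : ℝ) 1 → F t x ∈ V) ∧
            t ∈ Ioc t₀ (min y 1) := by
          refine (hev.filter_mono nhdsWithin_le_nhds).and ?_
          exact Ioc_mem_nhdsGT (lt_min hy' ht₁.2)
        obtain ⟨t, h6, h7⟩ := h5.exists
        refine ⟨t, fun x hx => h6 x hx ⟨ht₁.1.trans h7.1.le, h7.2.trans (min_le_right _ _)⟩,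
          h7.1, h7.2.trans (min_le_left _ _)⟩
    exact fun t ht => hmain ht
  intro t ht x hx
  by_contra hcon
  obtain ⟨V, hV, hKV, hVU, hst⟩ := hS {F t x}ᶜ isOpen_compl_singleton
    (fun y hy h => hcon (by rwa [← mem_singleton_iff.1 h]))
  exact hVU (claim V hV hKV hst t ht x hx) rfl

end Pool.Helper51.Hart
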